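import Pool.Agent.W97.V20.Stm

/-!
The real period of E13 as an integral over the quartic.
-/

set_option autoImplicit false

open MeasureTheory Set Filter

namespace Pool.Agent.W75.V20

noncomputable section

open Pool.Agent.W97.V20

def V (s : ℝ) : ℝ := Real.sqrt (s ^ 4 + 22 * s ^ 2 + 125)

def X (s : ℝ) : ℝ := (V s + s ^ 2 + 11) / 2

lemma Q_pos (s : ℝ) : 0 < s ^ 4 + 22 * s ^ 2 + 125 := by positivity

lemma V_pos (s : ℝ) : 0 < V s := Real.sqrt_pos.mpr (Q_pos s)

lemma V_sq (s : ℝ) : V s ^ 2 = s ^ 4 + 22 * s ^ 2 + 125 := Real.sq_sqrt (Q_pos s).le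

lemma X_pos (s : ℝ) : 0 < X s := by
  unfold X
  have := V_pos s
  positivity

lemma X_eq (s : ℝ) : X s ^ 2 = (s ^ 2 + 11) * X s + 1 := by
  unfold X
  have := V_sq s
  nlinarith

lemma V_deriv (s : ℝ) : HasDerivAt V (2 * s * (s ^ 2 + 11) / V s) s := by
  have h : HasDerivAt (fun s : ℝ => s ^ 4 + 22 * s ^ 2 + 125) (4 * s ^ 3 + 44 * s) s := by
    have h1 := ((hasDerivAt_pow 4 s).add ((hasDerivAt_pow 2 s).const_mul 22)).add_const 125
    refine HasDerivAt.congr_deriv h1 ?_
    norm_num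
    ring
  have h2 := h.sqrt (Q_pos s).ne'
  have hv := V_pos s
  refine HasDerivAt.congr_deriv h2 ?_
  show (4 * s ^ 3 + 44 * s) / (2 * V s) = _
  field_simp
  ring

lemma X_deriv (s : ℝ) : HasDerivAt X (2 * s * X s / V s) s := by
  have h := (((V_deriv s).add (hasDerivAt_pow 2 s)).add_const 11).div_const 2
  have hv := V_pos s
  refine HasDerivAt.congr_deriv h ?_
  unfold X
  field_simp
  norm_num
  ring

lemma f1_deriv (s : ℝ) : HasDerivAt (fun s => 13 * X s) (26 * s * X s / V s) s := by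
  have h := (X_deriv s).const_mul 13
  refine HasDerivAt.congr_deriv h ?_
  ring

lemma f2_deriv (s : ℝ) : HasDerivAt (fun s => -13 / X s) (26 * s / (V s * X s)) s := by
  have h := ((X_deriv s).inv (X_pos s).ne').const_mul (-13)
  have hx := X_pos s
  have hv := V_pos s
  refine HasDerivAt.congr_deriv (f := fun s => -13 / X s) ?_ ?_ (f' := -13 * (-(2 * s * X s / V s) / X s ^ 2))
  · have e : (fun s => -13 / X s) = fun s => -13 * (X s)⁻¹ := by
      ext s
      rw [div_eq_mul_inv]
    rw [e]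
    exact h
  · field_simp
    norm_num
    ring

lemma X_inj {s t : ℝ} (hs : 0 < s) (ht : 0 < t) (h : X s = X t) : s = t := by
  have h1 := X_eq s
  have h2 := X_eq t
  rw [← h] at h2
  have hx := X_pos s
  have h3 : (s ^ 2 - t ^ 2) * X s = 0 := by linarith
  have h4 : s ^ 2 - t ^ 2 = 0 := by
    rcases mul_eq_zero.mp h3 with h | h
    · exact h
    · exact absurd h hx.ne'
  nlinarith

lemma psi_eq (x : ℝ) : psi E13 x = 4 * x * (x ^ 2 - 143 * x - 169) := by
  simp only [psi, E13, WeierstrassCurve.b₂, WeierstrassCurve.b₄, WeierstrassCurve.b₆]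
  push_cast
  ring

lemma X_surj (y : ℝ) (hy : 0 < y) (h : 0 < y ^ 2 - 11 * y - 1) : ∃ s, 0 < s ∧ X s = y := by
  refine ⟨Real.sqrt ((y ^ 2 - 11 * y - 1) / y), Real.sqrt_pos.mpr (div_pos h hy), ?_⟩
  have e1 : Real.sqrt ((y ^ 2 - 11 * y - 1) / y) ^ 2 = (y ^ 2 - 11 * y - 1) / y :=
    Real.sq_sqrt (div_pos h hy).le
  have e2 : V (Real.sqrt ((y ^ 2 - 11 * y - 1) / y)) = y + 1 / y := by
    unfold V
    rw [Real.sqrt_eq_iff_mul_self_eq_of_pos (by positivity)]
    have : Real.sqrt ((y ^ 2 - 11 * y - 1) / y) ^ 4 = ((y ^ 2 - 11 * y - 1) / y) ^ 2 := by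
      calc _ = (Real.sqrt ((y ^ 2 - 11 * y - 1) / y) ^ 2) ^ 2 := by ring
        _ = _ := by rw [e1]
    rw [this, e1]
    field_simp
    ring
  unfold X
  rw [e2, e1]
  field_simp
  ring

lemma set_eq : {x : ℝ | 0 < psi E13 x} =
    (fun s => 13 * X s) '' Ioi 0 ∪ (fun s => -13 / X s) '' Ioi 0 := by
  ext x
  simp only [Set.mem_ofPred_eq, mem_union, mem_image, mem_Ioi, psi_eq]
  constructor
  · intro hx
    rcases lt_trichotomy x 0 with h | h | h
    · right
      have h1 : x ^ 2 - 143 * x - 169 < 0 := by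
        by_contra hc
        push Not at hc
        nlinarith [mul_nonneg_of_nonpos_of_nonpos h.le (neg_nonpos.mpr hc)]
      have hy : 0 < -13 / x := div_pos_of_neg_of_neg (by norm_num) h
      have hp : 0 < (-13 / x) ^ 2 - 11 * (-13 / x) - 1 := by
        have : (-13 / x) ^ 2 - 11 * (-13 / x) - 1 = -(x ^ 2 - 143 * x - 169) / x ^ 2 := by
          have := h.ne
          field_simp
          ring
        rw [this]
        apply div_pos (by linarith)
        have := h.ne
        positivity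
      obtain ⟨s, hs, hX⟩ := X_surj _ hy hp
      refine ⟨s, hs, ?_⟩
      rw [hX]
      have := h.ne
      field_simp
    · subst h
      norm_num at hx
    · left
      have h1 : 0 < x ^ 2 - 143 * x - 169 := by
        by_contra hc
        push Not at hc
        nlinarith [mul_nonneg h.le (neg_nonneg.mpr hc)]
      obtain ⟨s, hs, hX⟩ := X_surj (x / 13) (by positivity) (by nlinarith)
      refine ⟨s, hs, ?_⟩
      rw [hX]
      ring
  · rintro (⟨s, hs, rfl⟩ | ⟨s, hs, rfl⟩)
    · have hx := X_pos s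
      have he := X_eq s
      have : 4 * (13 * X s) * ((13 * X s) ^ 2 - 143 * (13 * X s) - 169) =
          8788 * (s * X s) ^ 2 := by
        linear_combination 8788 * X s * he
      rw [this]
      positivity
    · have hx := X_pos s
      have he := X_eq s
      have : 4 * (-13 / X s) * ((-13 / X s) ^ 2 - 143 * (-13 / X s) - 169) =
          8788 * (s / X s) ^ 2 := by
        field_simp
        linear_combination 8788 * he
      rw [this]
      positivity

lemma psi1 (s : ℝ) : psi E13 (13 * X s) = 8788 * (s * X s) ^ 2 := by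
  rw [psi_eq]
  linear_combination 8788 * X s * X_eq s

lemma psi2 (s : ℝ) : psi E13 (-13 / X s) = 8788 * (s / X s) ^ 2 := by
  rw [psi_eq]
  have hx := X_pos s
  field_simp
  linear_combination 8788 * X_eq s

lemma sqrt_c : Real.sqrt 8788 = 26 * Real.sqrt 13 := by
  have : (8788 : ℝ) = 26 ^ 2 * 13 := by norm_num
  rw [this, Real.sqrt_mul (by norm_num), Real.sqrt_sq (by norm_num)]

lemma int1 (s : ℝ) (hs : 0 < s) : |26 * s * X s / V s| • (Real.sqrt (psi E13 (13 * X s)))⁻¹ =
    (Real.sqrt 13)⁻¹ * (V s)⁻¹ := by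
  have hx := X_pos s
  have hv := V_pos s
  have h13 : 0 < Real.sqrt 13 := Real.sqrt_pos.mpr (by norm_num)
  rw [psi1, Real.sqrt_mul (by norm_num), Real.sqrt_sq (by positivity), sqrt_c,
    abs_of_pos (by positivity), smul_eq_mul]
  field_simp

lemma int2 (s : ℝ) (hs : 0 < s) : |26 * s / (V s * X s)| • (Real.sqrt (psi E13 (-13 / X s)))⁻¹ =
    (Real.sqrt 13)⁻¹ * (V s)⁻¹ := by
  have hx := X_pos s
  have hv := V_pos s
  have h13 : 0 < Real.sqrt 13 := Real.sqrt_pos.mpr (by norm_num)
  rw [psi2, Real.sqrt_mul (by norm_num), Real.sqrt_sq (by positivity), sqrt_c,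
    abs_of_pos (by positivity), smul_eq_mul]
  field_simp

lemma V_int : IntegrableOn (fun s : ℝ => (V s)⁻¹) (Ioi 0) := by
  have h := integrable_inv_one_add_sq.integrableOn (s := Ioi (0 : ℝ))
  refine Integrable.mono' h ?_ ?_
  · have hc : Continuous fun s : ℝ => (V s)⁻¹ := by
      unfold V
      apply Continuous.inv₀ (by fun_prop)
      intro s
      exact (V_pos s).ne'
    exact hc.aestronglyMeasurable
  · refine Filter.Eventually.of_forall fun s => ?_
    rw [Real.norm_eq_abs, abs_of_pos (inv_pos.mpr (V_pos s))]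
    apply inv_anti₀ (by positivity)
    unfold V
    apply Real.le_sqrt_of_sq_le
    nlinarith [sq_nonneg s]

theorem s_omega : Pool.Agent.W97.V20.S_OMEGA := by
  refine ⟨V_int, ?_⟩
  unfold Omega
  rw [set_eq]
  have inj1 : InjOn (fun s => 13 * X s) (Ioi 0) := by
    intro s hs t ht h
    exact X_inj hs ht (by simpa using h)
  have inj2 : InjOn (fun s => -13 / X s) (Ioi 0) := by
    intro s hs t ht h
    have hx := X_pos s
    have hx' := X_pos t
    apply X_inj hs ht
    simp only at h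
    field_simp at h
    linarith
  have d1 : ∀ s ∈ Ioi (0 : ℝ), HasDerivWithinAt (fun s => 13 * X s) (26 * s * X s / V s) (Ioi 0) s :=
    fun s _ => (f1_deriv s).hasDerivWithinAt
  have d2 : ∀ s ∈ Ioi (0 : ℝ), HasDerivWithinAt (fun s => -13 / X s) (26 * s / (V s * X s))
      (Ioi 0) s := fun s _ => (f2_deriv s).hasDerivWithinAt
  have cont : Continuous X := by
    rw [continuous_iff_continuousAt]
    exact fun s => (X_deriv s).continuousAt
  have i0 : IntegrableOn (fun s : ℝ => (Real.sqrt 13)⁻¹ * (V s)⁻¹) (Ioi 0) :=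
    V_int.const_mul _
  have e1 : ∫ x in (fun s => 13 * X s) '' Ioi 0, (Real.sqrt (psi E13 x))⁻¹ =
      ∫ s in Ioi (0 : ℝ), (Real.sqrt 13)⁻¹ * (V s)⁻¹ := by
    rw [integral_image_eq_integral_abs_deriv_smul measurableSet_Ioi d1 inj1]
    exact setIntegral_congr_fun measurableSet_Ioi fun s hs => int1 s hs
  have e2 : ∫ x in (fun s => -13 / X s) '' Ioi 0, (Real.sqrt (psi E13 x))⁻¹ =
      ∫ s in Ioi (0 : ℝ), (Real.sqrt 13)⁻¹ * (V s)⁻¹ := by
    rw [integral_image_eq_integral_abs_deriv_smul measurableSet_Ioi d2 inj2]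
    exact setIntegral_congr_fun measurableSet_Ioi fun s hs => int2 s hs
  have j1 : IntegrableOn (fun x => (Real.sqrt (psi E13 x))⁻¹) ((fun s => 13 * X s) '' Ioi 0) := by
    rw [integrableOn_image_iff_integrableOn_abs_deriv_smul measurableSet_Ioi d1 inj1]
    exact (integrableOn_congr_fun (fun s hs => int1 s hs) measurableSet_Ioi).mpr i0
  have j2 : IntegrableOn (fun x => (Real.sqrt (psi E13 x))⁻¹) ((fun s => -13 / X s) '' Ioi 0) := by
    rw [integrableOn_image_iff_integrableOn_abs_deriv_smul measurableSet_Ioi d2 inj2]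
    exact (integrableOn_congr_fun (fun s hs => int2 s hs) measurableSet_Ioi).mpr i0
  have hdis : Disjoint ((fun s => 13 * X s) '' Ioi (0 : ℝ)) ((fun s => -13 / X s) '' Ioi 0) := by
    rw [Set.disjoint_left]
    rintro x ⟨s, hs, rfl⟩ ⟨t, ht, h⟩
    have h1 : 0 < 13 * X s := mul_pos (by norm_num) (X_pos s)
    have h2 : -13 / X t < 0 := div_neg_of_neg_of_pos (by norm_num) (X_pos t)
    simp only at h
    linarith
  have hm : MeasurableSet ((fun s => -13 / X s) '' Ioi (0 : ℝ)) := by
    apply MeasurableSet.image_of_continuousOn_injOn measurableSet_Ioi _ inj2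
    apply Continuous.continuousOn
    exact continuous_const.div cont (fun s => (X_pos s).ne')
  rw [setIntegral_union hdis hm j1 j2, e1, e2, integral_const_mul]
  show (Real.sqrt 13)⁻¹ * (∫ s in Ioi (0 : ℝ), (V s)⁻¹) +
    (Real.sqrt 13)⁻¹ * (∫ s in Ioi (0 : ℝ), (V s)⁻¹) =
    2 / Real.sqrt 13 * ∫ s in Ioi (0 : ℝ), (V s)⁻¹
  ring

end

end Pool.Agent.W75.V20
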